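import Pool.Agent.H14.AVS.S4
import Pool.Agent.H83.AVR.EQB

/-!
# AVS, module EQP: equidistribution of the bounded symmetric matrices
-/

set_option autoImplicit false

namespace Pool.AVS

open Polynomial Matrix Pool.AVR

namespace EQP

/-- Sums over the fibres of a surjective homomorphism of finite groups. -/
theorem sum_fib {G H : Type} [AddGroup G] [AddGroup H] [Fintype G] [Fintype H] (ψ : G →+ H)
    (hψ : Function.Surjective ψ) (f : H → ℝ) :
    (Nat.card H : ℝ) * ∑ g, f (ψ g) = (Nat.card G : ℝ) * ∑ y, f y := by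
  classical
  have hk : ∀ t : H, (Finset.univ.filter fun g : G => ψ g = t).card =
      (Finset.univ.filter fun g : G => ψ g = 0).card := by
    intro t
    exact AddMonoidHom.card_fiber_eq_of_mem_range ψ (hψ t) (hψ 0)
  have h1 : ∀ f : H → ℝ, ∑ g, f (ψ g) =
      ((Finset.univ.filter fun g : G => ψ g = 0).card : ℝ) * ∑ y, f y := by
    intro f
    rw [← Finset.sum_fiberwise (s := Finset.univ) (g := ψ) (f := fun g => f (ψ g)), Finset.mul_sum]
    apply Finset.sum_congr rfl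
    intro t _
    rw [← hk t, ← nsmul_eq_mul, ← Finset.sum_const]
    apply Finset.sum_congr rfl
    intro g hg
    rw [(Finset.mem_filter.1 hg).2]
  have h2 := h1 (fun _ => 1)
  simp only [Finset.sum_const, Finset.card_univ, nsmul_eq_mul, mul_one] at h2
  rw [h1 f, Nat.card_eq_fintype_card, Nat.card_eq_fintype_card, h2]
  ring

theorem mk_mod {F : Type} [Field F] (M s : F[X]) : AdjoinRoot.mk M (s % M) = AdjoinRoot.mk M s := by
  have h := EuclideanDomain.div_add_mod s M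
  conv_rhs => rw [← h]
  rw [map_add, map_mul, AdjoinRoot.mk_self, zero_mul, zero_add]

/-- The Chinese remainder theorem. -/
theorem crt {F : Type} [Field F] (T : Finset F[X])
    (hT : ∀ M ∈ T, ∀ M' ∈ T, M ≠ M' → IsCoprime M M') (r : (M : F[X]) → AdjoinRoot M) :
    ∃ p : F[X], ∀ M ∈ T, AdjoinRoot.mk M p = r M := by
  classical
  induction T using Finset.induction_on with
  | empty => exact ⟨0, by simp⟩
  | insert Q T hQ ih =>
    obtain ⟨p, hp⟩ := ih (fun M hM M' hM' h => hT M (Finset.mem_insert_of_mem hM) M'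
      (Finset.mem_insert_of_mem hM') h)
    have hc : IsCoprime Q (∏ M ∈ T, M) := by
      apply IsCoprime.prod_right
      intro M hM
      apply hT Q (Finset.mem_insert_self _ _) M (Finset.mem_insert_of_mem hM)
      rintro rfl
      exact hQ hM
    obtain ⟨u, v, huv⟩ := hc
    obtain ⟨s, hs⟩ := AdjoinRoot.mk_surjective (r Q)
    refine ⟨p * (u * Q) + s * (v * ∏ M ∈ T, M), ?_⟩
    intro M hM
    rw [Finset.mem_insert] at hM
    rcases hM with rfl | hM
    · have h1 : p * (u * M) + s * (v * ∏ M ∈ T, M) = s + M * ((p - s) * u) := by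
        linear_combination s * huv
      rw [h1, map_add, map_mul, AdjoinRoot.mk_self, zero_mul, add_zero, hs]
    · obtain ⟨w, hw⟩ := Finset.dvd_prod_of_mem (fun M : F[X] => M) hM
      have h1 : p * (u * Q) + s * (v * ∏ M ∈ T, M) = p + M * ((s - p) * v * w) := by
        have hw' : ∏ M ∈ T, M = M * w := hw
        linear_combination p * huv + (s - p) * v * hw' - s * v * hw' + s * v * hw'
      rw [h1, map_add, map_mul, AdjoinRoot.mk_self, zero_mul, add_zero, hp M hM]

/-- Surjectivity for one entry. -/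
theorem surj {F : Type} [Field F] (T : Finset F[X]) (hm : ∀ M ∈ T, M.Monic)
    (hT : ∀ M ∈ T, ∀ M' ∈ T, M ≠ M' → IsCoprime M M') (N K : ℕ)
    (hK : (∑ M ∈ T, M.natDegree) + N ≤ K + 1) (r : (M : F[X]) → AdjoinRoot M)
    (s : AdjoinRoot ((X : F[X]) ^ N)) :
    ∃ p : F[X], p.natDegree ≤ K ∧ (∀ M ∈ T, AdjoinRoot.mk M p = r M) ∧
      AdjoinRoot.mk (X ^ N) (p.reflect K) = s := by
  obtain ⟨s₁, hs₁⟩ := AdjoinRoot.mk_surjective s
  have hXm : ((X : F[X]) ^ N).Monic := monic_X_pow N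
  set s₀ : F[X] := s₁ % X ^ N with hs₀
  have hs0 : AdjoinRoot.mk (X ^ N) s₀ = s := by rw [hs₀, mk_mod, hs₁]
  have hs0d : ∀ k, N ≤ k → s₀.coeff k = 0 := by
    intro k hk
    apply coeff_eq_zero_of_degree_lt
    refine (EuclideanDomain.mod_lt s₁ hXm.ne_zero).trans_le ?_
    rw [degree_X_pow]
    exact_mod_cast hk
  set Q : F[X] := ∏ M ∈ T, M with hQ
  have hQm : Q.Monic := monic_prod_of_monic _ _ hm
  have hQd : Q.natDegree = ∑ M ∈ T, M.natDegree := natDegree_prod_of_monic _ _ hm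
  set w : F[X] := s₀.reflect K with hw
  obtain ⟨p₁, hp₁⟩ := crt T hT (fun M => r M - AdjoinRoot.mk M w)
  set p₂ : F[X] := p₁ % Q with hp₂
  have hp2 : ∀ M ∈ T, AdjoinRoot.mk M p₂ = r M - AdjoinRoot.mk M w := by
    intro M hM
    obtain ⟨v, hv⟩ := Finset.dvd_prod_of_mem (fun M : F[X] => M) hM
    have hv' : Q = M * v := hv
    have h := EuclideanDomain.div_add_mod p₁ Q
    have h2 : p₂ = p₁ - M * (v * (p₁ / Q)) := by
      rw [hp₂]
      linear_combination h - (p₁ / Q) * hv'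
    rw [h2, map_sub, map_mul, AdjoinRoot.mk_self, zero_mul, sub_zero, hp₁ M hM]
  have hp2d : ∀ k, Q.natDegree ≤ k → p₂.coeff k = 0 := by
    intro k hk
    apply coeff_eq_zero_of_degree_lt
    refine (EuclideanDomain.mod_lt p₁ hQm.ne_zero).trans_le ?_
    rw [degree_eq_natDegree hQm.ne_zero]
    exact_mod_cast hk
  have hwd : ∀ k, K < k → w.coeff k = 0 := by
    intro k hk
    rw [hw, coeff_reflect, revAt_eq_self_of_lt hk]
    exact hs0d k (by omega)
  refine ⟨w + p₂, ?_, ?_, ?_⟩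
  · rw [natDegree_le_iff_coeff_eq_zero]
    intro k hk
    rw [coeff_add, hwd k hk, hp2d k (by omega), add_zero]
  · intro M hM
    rw [map_add, hp2 M hM]
    ring
  · rw [reflect_add, map_add]
    have h1 : w.reflect K = s₀ := by
      ext k
      rw [hw, coeff_reflect, coeff_reflect, revAt_invol]
    have h2 : (X : F[X]) ^ N ∣ p₂.reflect K := by
      rw [X_pow_dvd_iff]
      intro d hd
      rw [coeff_reflect, revAt_le (by omega)]
      exact hp2d _ (by omega)
    rw [h1, hs0, AdjoinRoot.mk_eq_zero.2 h2, add_zero]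

/-- Symmetric matrices over an additive group. -/
def H (R : Type) [AddCommGroup R] : AddSubgroup (Matrix (Fin 3) (Fin 3) R) where
  carrier := {B | Bᵀ = B ∧ ∀ i j, B i j ∈ (Set.univ : Set R)}
  zero_mem' := ⟨by simp, fun i j => trivial⟩
  add_mem' := by
    rintro A B ⟨h1, _⟩ ⟨h3, _⟩
    exact ⟨by rw [transpose_add, h1, h3], fun i j => trivial⟩
  neg_mem' := by
    rintro A ⟨h1, _⟩
    exact ⟨by rw [transpose_neg, h1], fun i j => trivial⟩

theorem H_finite (R : Type) [AddCommGroup R] [Finite R] : Finite (H R) :=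
  EQB_finite (fun _ _ => (Set.univ : Set R)) (fun _ _ => rfl)
    (fun _ _ => Finite.of_equiv R (Equiv.Set.univ R).symm)

theorem H_card (R : Type) [AddCommGroup R] [Finite R] : Nat.card (H R) = Nat.card R ^ 6 := by
  have h := EQB_card (fun _ _ => (Set.univ : Set R)) (fun _ _ => rfl)
  refine h.trans ?_
  rw [Nat.card_congr (Equiv.Set.univ R)]
  ring

theorem H_sum (R : Type) [AddCommGroup R] [Fintype (H R)] (f : Matrix (Fin 3) (Fin 3) R → ℝ) :
    ∑ᶠ B ∈ {B : Matrix (Fin 3) (Fin 3) R | Bᵀ = B}, f B = ∑ B : H R, f B.1 := by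
  have h1 : {B : Matrix (Fin 3) (Fin 3) R | Bᵀ = B} = (H R : Set (Matrix (Fin 3) (Fin 3) R)) := by
    ext B
    constructor
    · intro h
      exact ⟨h, fun _ _ => trivial⟩
    · intro h
      exact h.1
  rw [h1, ← finsum_set_coe_eq_finsum_mem]
  exact finsum_eq_sum_of_fintype _

/-- The bounded symmetric matrices. -/
def G (F : Type) [Field F] (Nn : Fin 3 → Fin 3 → ℕ) : AddSubgroup (Matrix (Fin 3) (Fin 3) F[X]) where
  carrier := {B | Bᵀ = B ∧ ∀ i j, B i j ∈ {p : F[X] | p.natDegree ≤ Nn i j}}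
  zero_mem' := ⟨by simp, fun i j => by simp⟩
  add_mem' := by
    rintro A B ⟨h1, h2⟩ ⟨h3, h4⟩
    refine ⟨by rw [transpose_add, h1, h3], fun i j => ?_⟩
    exact (natDegree_add_le _ _).trans (max_le (h2 i j) (h4 i j))
  neg_mem' := by
    rintro A ⟨h1, h2⟩
    refine ⟨by rw [transpose_neg, h1], fun i j => ?_⟩
    show (-(A i j)).natDegree ≤ Nn i j
    rw [natDegree_neg]
    exact h2 i j

/-- The reduction map. -/
noncomputable def psi (F : Type) [Field F] (Nn : Fin 3 → Fin 3 → ℕ)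
    (hs : ∀ i j, Nn i j = Nn j i) (T : Finset F[X]) (N : ℕ) :
    G F Nn →+ ((M : {M // M ∈ T}) → H (AdjoinRoot M.1)) × H (AdjoinRoot ((X : F[X]) ^ N)) where
  toFun B := (fun M => ⟨B.1.map (AdjoinRoot.mk M.1), by
      refine ⟨?_, fun i j => trivial⟩
      rw [← transpose_map, B.2.1]⟩,
    ⟨(Matrix.of fun i j => (B.1 i j).reflect (Nn i j)).map (AdjoinRoot.mk (X ^ N)), by
      refine ⟨?_, fun i j => trivial⟩
      rw [← transpose_map]
      congr 1
      ext1 i j
      show (B.1 j i).reflect (Nn j i) = (B.1 i j).reflect (Nn i j)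
      rw [hs j i]
      congr 1
      conv_rhs => rw [← B.2.1]
      rfl⟩)
  map_zero' := by
    refine Prod.ext (funext fun M => Subtype.ext ?_) (Subtype.ext ?_)
    · ext1 i j
      simp
    · ext1 i j
      simp
  map_add' A B := by
    refine Prod.ext (funext fun M => Subtype.ext ?_) (Subtype.ext ?_)
    · ext1 i j
      simp
    · ext1 i j
      simp [reflect_add]

theorem psi_surj (F : Type) [Field F] (Nn : Fin 3 → Fin 3 → ℕ)
    (hs : ∀ i j, Nn i j = Nn j i) (T : Finset F[X]) (N : ℕ) (hm : ∀ M ∈ T, M.Monic)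
    (hT : ∀ M ∈ T, ∀ M' ∈ T, M ≠ M' → IsCoprime M M')
    (hK : ∀ i j, (∑ M ∈ T, M.natDegree) + N ≤ Nn i j + 1) :
    Function.Surjective (psi F Nn hs T N) := by
  classical
  rintro ⟨w, ⟨v, hv, _⟩⟩
  let r : Fin 3 → Fin 3 → (M : F[X]) → AdjoinRoot M := fun i j M =>
    if h : M ∈ T then (w ⟨M, h⟩).1 i j else 0
  have hr : ∀ i j (M : {M // M ∈ T}), r i j M.1 = (w M).1 i j := by
    intro i j M
    show (if h : M.1 ∈ T then (w ⟨M.1, h⟩).1 i j else 0) = (w M).1 i j
    rw [dif_pos M.2]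
  have hex : ∀ i j, ∃ p : F[X], p.natDegree ≤ Nn i j ∧ (∀ M ∈ T, AdjoinRoot.mk M p = r i j M) ∧
      AdjoinRoot.mk (X ^ N) (p.reflect (Nn i j)) = v i j := fun i j =>
    surj T hm hT N (Nn i j) (hK i j) (r i j) (v i j)
  choose p hp1 hp2 hp3 using hex
  have hws : ∀ i j (M : {M // M ∈ T}), (w M).1 i j = (w M).1 j i := by
    intro i j M
    conv_lhs => rw [← (w M).2.1]
    rfl
  have hvs : ∀ i j, v i j = v j i := by
    intro i j
    conv_lhs => rw [← hv]
    rfl
  let B : Matrix (Fin 3) (Fin 3) F[X] := Matrix.of fun i j => if i ≤ j then p i j else p j i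
  have hB : ∀ i j, (B i j).natDegree ≤ Nn i j ∧
      (∀ M : {M // M ∈ T}, AdjoinRoot.mk M.1 (B i j) = (w M).1 i j) ∧
      AdjoinRoot.mk (X ^ N) ((B i j).reflect (Nn i j)) = v i j := by
    intro i j
    show ((if i ≤ j then p i j else p j i).natDegree ≤ Nn i j) ∧
      (∀ M : {M // M ∈ T}, AdjoinRoot.mk M.1 (if i ≤ j then p i j else p j i) = (w M).1 i j) ∧
      AdjoinRoot.mk (X ^ N) ((if i ≤ j then p i j else p j i).reflect (Nn i j)) = v i j
    by_cases hij : i ≤ j
    · rw [if_pos hij]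
      exact ⟨hp1 i j, fun M => by rw [hp2 i j M.1 M.2, hr], hp3 i j⟩
    · rw [if_neg hij, hs i j, hvs i j]
      exact ⟨hp1 j i, fun M => by rw [hp2 j i M.1 M.2, hr, hws], hp3 j i⟩
  have hBt : Bᵀ = B := by
    ext1 i j
    show (if j ≤ i then p j i else p i j) = (if i ≤ j then p i j else p j i)
    rcases lt_trichotomy i j with h | h | h
    · rw [if_neg (not_le.2 h), if_pos h.le]
    · subst h; rfl
    · rw [if_pos h.le, if_neg (not_le.2 h)]
  refine ⟨⟨B, hBt, fun i j => (hB i j).1⟩, ?_⟩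
  refine Prod.ext (funext fun M => Subtype.ext ?_) (Subtype.ext ?_)
  · ext1 i j
    exact (hB i j).2.1 M
  · ext1 i j
    exact (hB i j).2.2

end EQP

theorem eqp_thm : EQPStmt := by
  classical
  intro F _ _ n m N T hmn hN hmon hcop hdeg Φ Ψ
  let Nn : Fin 3 → Fin 3 → ℕ := fun i j => (2 * (n : ℤ) + dd m i + dd m j).toNat
  have hlow : ∀ i, -(m : ℤ) ≤ dd m i := by
    intro i
    fin_cases i <;> simp [dd]
  have hNn : ∀ i j, ((Nn i j : ℕ) : ℤ) = 2 * (n : ℤ) + dd m i + dd m j := by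
    intro i j
    apply Int.toNat_of_nonneg
    have := hlow i
    have := hlow j
    omega
  have hNsym : ∀ i j, Nn i j = Nn j i := by
    intro i j
    show (2 * (n : ℤ) + dd m i + dd m j).toNat = (2 * (n : ℤ) + dd m j + dd m i).toNat
    congr 1
    ring
  have hNlow : ∀ i j, (∑ M ∈ T, M.natDegree) + N ≤ Nn i j + 1 := by
    intro i j
    have := hlow i
    have := hlow j
    have := hNn i j
    omega
  have hBd : {B : Matrix (Fin 3) (Fin 3) F[X] | Bd n m B} =
      (EQP.G F Nn : Set (Matrix (Fin 3) (Fin 3) F[X])) := by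
    ext B
    constructor
    · rintro ⟨h1, h2⟩
      refine ⟨h1, fun i j => ?_⟩
      show (B i j).natDegree ≤ Nn i j
      by_cases h0 : B i j = 0
      · rw [h0]; simp
      · have := h2 i j h0
        rw [← hNn i j] at this
        exact_mod_cast this
    · rintro ⟨h1, h2⟩
      refine ⟨h1, fun i j _ => ?_⟩
      rw [← hNn i j]
      exact_mod_cast h2 i j
  have hGf : Finite (EQP.G F Nn) := EQB_finite (fun i j => {p : F[X] | p.natDegree ≤ Nn i j})
    (fun i j => by rw [hNsym]) (fun i j => (EQB_poly F _).1)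
  have hadj : ∀ M : {M // M ∈ T}, Finite (AdjoinRoot M.1) := fun M =>
    (EQB_adj F M.1 (hmon M.1 M.2).ne_zero).1
  have hadX : Finite (AdjoinRoot ((X : F[X]) ^ N)) := (EQB_adj F _ (monic_X_pow N).ne_zero).1
  have hHf : ∀ M : {M // M ∈ T}, Finite (EQP.H (AdjoinRoot M.1)) := fun M => EQP.H_finite _
  have hHX : Finite (EQP.H (AdjoinRoot ((X : F[X]) ^ N))) := EQP.H_finite _
  have : Fintype (EQP.G F Nn) := Fintype.ofFinite _
  have : ∀ M : {M // M ∈ T}, Fintype (EQP.H (AdjoinRoot M.1)) := fun M => Fintype.ofFinite _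
  have : Fintype (EQP.H (AdjoinRoot ((X : F[X]) ^ N))) := Fintype.ofFinite _
  have hG : Nat.card (EQP.G F Nn) = Nat.card F ^ (12 * n + 6) := by
    have h := EQB_card (fun i j => {p : F[X] | p.natDegree ≤ Nn i j}) (fun i j => by rw [hNsym])
    refine h.trans ?_
    rw [(EQB_poly F _).2, (EQB_poly F _).2, (EQB_poly F _).2, (EQB_poly F _).2, (EQB_poly F _).2,
      (EQB_poly F _).2]
    rw [← pow_add, ← pow_add, ← pow_add, ← pow_add, ← pow_add]
    congr 1
    have h00 := hNn 0 0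
    have h01 := hNn 0 1
    have h02 := hNn 0 2
    have h11 := hNn 1 1
    have h12 := hNn 1 2
    have h22 := hNn 2 2
    simp only [dd, Matrix.cons_val_zero, Matrix.cons_val_one, Matrix.cons_val_two,
      Matrix.head_cons, Matrix.tail_cons] at h00 h01 h02 h11 h12 h22
    omega
  refine ⟨by rw [hBd]; exact Set.toFinite _, ?_⟩
  have hq : (0 : ℝ) < (Nat.card F : ℝ) := by exact_mod_cast Nat.card_pos
  -- the left side
  have hL : ∑ᶠ B ∈ {B : Matrix (Fin 3) (Fin 3) F[X] | Bd n m B},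
        (∏ M ∈ T, Φ M (B.map (AdjoinRoot.mk M))) *
          Ψ ((Binf n m B).map (AdjoinRoot.mk (X ^ N))) =
      ∑ B : EQP.G F Nn, (∏ M : {M // M ∈ T}, Φ M.1 ((EQP.psi F Nn hNsym T N B).1 M).1) *
        Ψ (EQP.psi F Nn hNsym T N B).2.1 := by
    rw [hBd, ← finsum_set_coe_eq_finsum_mem, finsum_eq_sum_of_fintype]
    apply Finset.sum_congr rfl
    intro B _
    congr 1
    rw [← Finset.prod_coe_sort]
    rfl
  have hmain := EQP.sum_fib (EQP.psi F Nn hNsym T N)
    (EQP.psi_surj F Nn hNsym T N hmon hcop hNlow)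
    (fun y => (∏ M : {M // M ∈ T}, Φ M.1 (y.1 M).1) * Ψ y.2.1)
  have hR : ∑ y : ((M : {M // M ∈ T}) → EQP.H (AdjoinRoot M.1)) ×
        EQP.H (AdjoinRoot ((X : F[X]) ^ N)),
        (∏ M : {M // M ∈ T}, Φ M.1 (y.1 M).1) * Ψ y.2.1 =
      (∏ M ∈ T, ∑ᶠ B ∈ {B : Matrix (Fin 3) (Fin 3) (AdjoinRoot M) | Bᵀ = B}, Φ M B) *
        ∑ᶠ B ∈ {B : Matrix (Fin 3) (Fin 3) (AdjoinRoot ((X : F[X]) ^ N)) | Bᵀ = B}, Ψ B := by
    have h1 : ∀ M : {M // M ∈ T},
        ∑ᶠ B ∈ {B : Matrix (Fin 3) (Fin 3) (AdjoinRoot M.1) | Bᵀ = B}, Φ M.1 B =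
          ∑ B : EQP.H (AdjoinRoot M.1), Φ M.1 B.1 := fun M => EQP.H_sum _ _
    rw [EQP.H_sum, ← Finset.prod_coe_sort, Finset.prod_congr rfl fun M _ => h1 M,
      Finset.prod_univ_sum, Fintype.piFinset_univ, Finset.sum_mul_sum, Fintype.sum_prod_type]
  have hcard : Nat.card (((M : {M // M ∈ T}) → EQP.H (AdjoinRoot M.1)) ×
      EQP.H (AdjoinRoot ((X : F[X]) ^ N))) =
      (∏ M ∈ T, Nat.card F ^ (6 * M.natDegree)) * Nat.card F ^ (6 * N) := by
    rw [Nat.card_prod, Nat.card_pi, EQP.H_card, (EQB_adj F _ (monic_X_pow N).ne_zero).2,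
      natDegree_X_pow, ← Finset.prod_coe_sort T (fun M => Nat.card F ^ (6 * M.natDegree))]
    congr 1
    · apply Finset.prod_congr rfl
      intro M _
      rw [EQP.H_card, (EQB_adj F M.1 (hmon M.1 M.2).ne_zero).2, ← pow_mul, mul_comm]
    · rw [← pow_mul, mul_comm]
  rw [hcard, hG, hR, ← hL] at hmain
  push_cast at hmain
  rw [Finset.prod_div_distrib]
  have hp1 : (0 : ℝ) < ∏ M ∈ T, (Nat.card F : ℝ) ^ (6 * M.natDegree) :=
    Finset.prod_pos fun M _ => pow_pos hq _
  have hp2 : (0 : ℝ) < (Nat.card F : ℝ) ^ (6 * N) := pow_pos hq _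
  field_simp
  linear_combination hmain

end Pool.AVS
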